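import Pool.Agent.R969.HE.Conv

/-!
# MP_8cd3bd_co: Hamiltonian extension numbers of cubic graphs are unbounded
-/

namespace Pool.Agent.Results.MP_8cd3bd_co.Unbounded

open SimpleGraph

/-- The path `P` lies on the cycle `C`: every vertex and every edge of `P` belong to `C`. -/
def LiesOn {V : Type} {G : SimpleGraph V} {x y z : V} (P : G.Walk x y) (C : G.Walk z z) : Prop :=
  (∀ u ∈ P.support, u ∈ C.support) ∧ (∀ e ∈ P.edges, e ∈ C.edges)

/-- Every path of order at most `k` in `G` lies on some Hamiltonian cycle of `G`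
(the order of a path is its number of vertices). -/
def PathsExtend {V : Type} [DecidableEq V] (G : SimpleGraph V) (k : ℕ) : Prop :=
  ∀ (x y : V) (P : G.Walk x y), P.IsPath → P.support.length ≤ k →
    ∃ (z : V) (C : G.Walk z z), C.IsHamiltonianCycle ∧ LiesOn P C

/-- `G` has a cycle through all of its vertices. -/
def Hamiltonian {V : Type} [DecidableEq V] (G : SimpleGraph V) : Prop :=
  ∃ (z : V) (C : G.Walk z z), C.IsHamiltonianCycle

/-- `G` is 3-regular. -/
def Cubic {V : Type} (G : SimpleGraph V) : Prop := ∀ v, (G.neighborSet v).ncard = 3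

/-- `h` is the Hamiltonian extension number `he(G)`: the largest integer `k` with `1 ≤ k ≤ n`
such that every path of order at most `k` in `G` lies on some Hamiltonian cycle of `G`. -/
def IsHE {V : Type} [Fintype V] [DecidableEq V] (G : SimpleGraph V) (h : ℕ) : Prop :=
  IsGreatest {k : ℕ | 1 ≤ k ∧ k ≤ Fintype.card V ∧ PathsExtend G k} h

/-- The set `S` of the Hamiltonian extension numbers of all finite 3-regular Hamiltonian graphs. -/
def S : Set ℕ :=
  {h | ∃ (V : Type) (_ : Fintype V) (_ : DecidableEq V) (G : SimpleGraph V),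
    Cubic G ∧ Hamiltonian G ∧ IsHE G h}

theorem paths_extend {V : Type} [Fintype V] [DecidableEq V] {G : SimpleGraph V} {l : ℕ}
    (hl : 3 ≤ l) (hn : l < Fintype.card V) (hG : R969.HE.Cub G) (hE : R969.HE.Ext G l) :
    PathsExtend G (l + 1) := by
  intro x y P hP hlen
  have hPl : P.length ≤ l := by
    have := P.length_support
    omega
  have hE' := hE.mono hG hPl
  obtain ⟨s, hs, hw⟩ := hE' (fun i => P.getVert i) (fun i hi => P.adj_getVert_succ hi) (by
    intro i hi e
    have := hP.getVert_injOn (show i ∈ {i | i ≤ P.length} from by simp; omega)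
      (show i + 2 ∈ {i | i ≤ P.length} from by simp; omega) e
    omega)
  obtain ⟨C, hC, hCe⟩ := R969.HE.exists_cycle hs (by omega) x
  refine ⟨x, C, hC, fun u _ => hC.mem_support u, ?_⟩
  intro e he
  obtain ⟨u, rfl⟩ := R969.HE.edges_follow P hw e he
  exact hCe u

theorem exists_large (k : ℕ) : ∃ h ∈ S, k ≤ h := by
  obtain ⟨V, i1, i2, G, h1, h2, h3⟩ := R969.HE.exists_ext (max k 3) (le_max_right _ _)
  have hl : 3 ≤ max k 3 := le_max_right _ _
  have hk : k ≤ max k 3 := le_max_left _ _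
  set l := max k 3 with hldef
  have hpe := paths_extend hl h1 h2 h3
  have hmem : l + 1 ∈ {k : ℕ | 1 ≤ k ∧ k ≤ Fintype.card V ∧ PathsExtend G k} :=
    ⟨by omega, h1, hpe⟩
  obtain ⟨h, hh⟩ : ∃ h, IsGreatest {k : ℕ | 1 ≤ k ∧ k ≤ Fintype.card V ∧ PathsExtend G k} h :=
    BddAbove.exists_isGreatest_of_nonempty ⟨Fintype.card V, fun k hk => hk.2.1⟩ ⟨_, hmem⟩
  have hle : l + 1 ≤ h := hh.2 hmem
  refine ⟨h, ⟨V, i1, i2, G, h2, ?_, hh⟩, by omega⟩
  obtain ⟨v⟩ : Nonempty V := Fintype.card_pos_iff.1 (by omega)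
  obtain ⟨z, C, hC, -⟩ := hpe v v Walk.nil (by simp) (by simp)
  exact ⟨z, C, hC⟩

/-- The set `S` of Hamiltonian extension numbers of 3-regular Hamiltonian graphs is not bounded
above: for every `k` there is a 3-regular Hamiltonian graph `G` with `he(G) ≥ k`. -/
theorem result : (∀ k : ℕ, ∃ h ∈ S, k ≤ h) ∧ ¬ BddAbove S := by
  refine ⟨exists_large, ?_⟩
  rintro ⟨B, hB⟩
  obtain ⟨h, hS, hh⟩ := exists_large (B + 1)
  have := hB hS
  omega

end Pool.Agent.Results.MP_8cd3bd_co.Unbounded
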